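import Pool.Agent.W2helper31.GP.Stm5
import Pool.Agent.W2helper88.GP.RMom

set_option autoImplicit false

open MeasureTheory ProbabilityTheory
open scoped ENNReal NNReal

namespace Pool.Agent.W2helper88.GP5

open Pool.Agent.W2helper31.GP Pool.Agent.W2helper88.GP

theorem integrand2 (f : (Fin 2 → ℝ) → ℝ) (M : ℝ)
    (hf : ∀ (t : ℝ) (x : Fin 2 → ℝ), 0 < t → f (t • x) = t ^ (2 * M) * f x) (r θ : ℝ)
    (hr : 0 < r) :
    f ![r * Real.cos θ, r * Real.sin θ] *
      ((r * Real.cos θ) ^ 2 + (r * Real.sin θ) ^ 2) ^ (-M) = f ![Real.cos θ, Real.sin θ] := by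
  have h1 : ![r * Real.cos θ, r * Real.sin θ] = r • ![Real.cos θ, Real.sin θ] := by
    ext i
    fin_cases i <;> simp
  have h5 : (r * Real.cos θ) ^ 2 + (r * Real.sin θ) ^ 2 = r ^ 2 := by
    have := Real.sin_sq_add_cos_sq θ
    linear_combination r ^ 2 * this
  have h6 : (r : ℝ) ^ (2 * M) * (r ^ 2 : ℝ) ^ (-M) = 1 := by
    rw [← Real.rpow_natCast r 2, ← Real.rpow_mul hr.le, ← Real.rpow_add hr]
    have : 2 * M + ((2 : ℕ) : ℝ) * (-M) = 0 := by push_cast; ring
    rw [this, Real.rpow_zero]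
  rw [h1, hf r _ hr, h5]
  calc r ^ (2 * M) * f ![Real.cos θ, Real.sin θ] * (r ^ 2) ^ (-M)
      = (r ^ (2 * M) * (r ^ 2) ^ (-M)) * f ![Real.cos θ, Real.sin θ] := by ring
    _ = _ := by rw [h6, one_mul]

theorem p_ang2 : P_ANG2 := by
  intro f M _ hf
  have hmeas : Measurable fun x : Fin 2 → ℝ =>
      ENNReal.ofReal (∏ j, gaussianPDFReal 0 1 (x j)) := by
    refine ENNReal.measurable_ofReal.comp (Finset.measurable_prod _ fun j _ => ?_)
    exact (measurable_gaussianPDFReal 0 1).comp (measurable_pi_apply j)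
  have hpos : ∀ x : Fin 2 → ℝ, 0 ≤ ∏ j, gaussianPDFReal 0 1 (x j) := fun x =>
    Finset.prod_nonneg fun j _ => gaussianPDFReal_nonneg 0 1 _
  rw [gam_eq, integral_withDensity_eq_integral_toReal_smul hmeas
      (Filter.Eventually.of_forall fun x => ENNReal.ofReal_lt_top)]
  let H : ℝ × ℝ → ℝ := fun p =>
    ((√(2 * Real.pi))⁻¹ ^ 2 * Real.exp (-(1 / 2) * (p.1 ^ 2 + p.2 ^ 2))) *
      (f ![p.1, p.2] * (p.1 ^ 2 + p.2 ^ 2) ^ (-M))
  have e1 : (fun x : Fin 2 → ℝ => (ENNReal.ofReal (∏ j, gaussianPDFReal 0 1 (x j))).toReal •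
      (f x * (∑ j, x j ^ 2) ^ (-M))) =
      fun x => H (MeasurableEquiv.finTwoArrow x) := by
    funext x
    have hx : f x = f ![x 0, x 1] := by
      congr 1
      ext i
      fin_cases i <;> rfl
    rw [ENNReal.toReal_ofReal (hpos x), dens, smul_eq_mul, hx]
    simp only [Fin.sum_univ_two]
    rfl
  rw [e1, (volume_preserving_finTwoArrow ℝ).integral_comp
    (MeasurableEquiv.finTwoArrow).measurableEmbedding H, ← integral_comp_polarCoord_symm]
  have e2 : ∀ p ∈ polarCoord.target, p.1 • H (polarCoord.symm p) =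
      (p.1 ^ (2 - 1) • rad 2 0 p.1) * f ![Real.cos p.2, Real.sin p.2] := by
    rintro ⟨r, θ⟩ hp
    rw [polarCoord_target] at hp
    have hr : 0 < r := hp.1
    rw [polarCoord_symm_apply]
    show r • (((√(2 * Real.pi))⁻¹ ^ 2 *
      Real.exp (-(1 / 2) * ((r * Real.cos θ) ^ 2 + (r * Real.sin θ) ^ 2))) *
      (f ![r * Real.cos θ, r * Real.sin θ] *
        ((r * Real.cos θ) ^ 2 + (r * Real.sin θ) ^ 2) ^ (-M))) =
      (r ^ (2 - 1) • rad 2 0 r) * f ![Real.cos θ, Real.sin θ]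
    rw [integrand2 f M hf r θ hr]
    have h5 : (r * Real.cos θ) ^ 2 + (r * Real.sin θ) ^ 2 = r ^ 2 := by
      have := Real.sin_sq_add_cos_sq θ
      linear_combination r ^ 2 * this
    rw [h5, rad, Real.rpow_two, mul_zero, Real.rpow_zero, mul_one, smul_eq_mul, smul_eq_mul]
    norm_num
    ring
  have hpi : -Real.pi ≤ Real.pi := by linarith [Real.pi_pos]
  have hang : ∫ θ in Set.Ioo (-Real.pi) Real.pi, f ![Real.cos θ, Real.sin θ] =
      ∫ θ in (-Real.pi)..Real.pi, f ![Real.cos θ, Real.sin θ] := by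
    rw [← integral_Ioc_eq_integral_Ioo, ← intervalIntegral.integral_of_le hpi]
  rw [setIntegral_congr_fun polarCoord.open_target.measurableSet e2, polarCoord_target,
    Measure.volume_eq_prod,
    setIntegral_prod_mul (fun r : ℝ => r ^ (2 - 1) • rad 2 0 r)
      (fun θ : ℝ => f ![Real.cos θ, Real.sin θ]), hang,
    (radial_int 2 (by norm_num) 0 le_rfl).2]
  congr 1
  have h7 : (√(2 * Real.pi))⁻¹ ^ 2 = 1 / (2 * Real.pi) := by
    rw [inv_pow, Real.sq_sqrt (by positivity), one_div]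
  rw [h7]
  have h8 : (((2 : ℕ) : ℝ) - 1 + 2 * 0 + 1) / 2 = 1 := by norm_num
  have h9 : -(((2 : ℕ) : ℝ) - 1 + 2 * 0 + 1) / 2 = -1 := by norm_num
  rw [h8, h9, Real.Gamma_one, Real.rpow_neg_one]
  norm_num

end Pool.Agent.W2helper88.GP5
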